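import Mathlib

/-!
# Exceptional sets in the sieve (helper6), part 1: counting

The covariance of the numbers of multiples of `d` and of `e` in `(m, m + H]`.
-/

set_option autoImplicit false

namespace Pool.Agent.L7h6.EX

open Finset

lemma cnt1 (Z N d v : ℕ) (hd : 0 < d) :
    |(#{m ∈ Ioc Z (Z + N) | m ≡ v [MOD d]} : ℝ) - N / d| ≤ 1 := by
  have h := Nat.Ioc_filter_modEq_card Z (Z + N) hd v
  obtain ⟨c, hc⟩ : ∃ c, c = #{m ∈ Ioc Z (Z + N) | m ≡ v [MOD d]} := ⟨_, rfl⟩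
  rw [← hc] at h ⊢
  have hdq : (0 : ℚ) < d := by exact_mod_cast hd
  obtain ⟨u, hu⟩ : ∃ u : ℚ, u = (((Z + N : ℕ) : ℚ) - v) / d := ⟨_, rfl⟩
  obtain ⟨w, hw⟩ : ∃ w : ℚ, w = ((Z : ℚ) - v) / d := ⟨_, rfl⟩
  rw [← hu, ← hw] at h
  have huw : u - w = N / d := by
    rw [hu, hw]
    push_cast
    field_simp
    ring
  have h1 := Int.floor_le u
  have h2 := Int.lt_floor_add_one u
  have h3 := Int.floor_le w
  have h4 := Int.lt_floor_add_one w
  have hwu : w ≤ u := by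
    have : (0 : ℚ) ≤ N / d := by positivity
    linarith
  have h5 : ⌊w⌋ ≤ ⌊u⌋ := Int.floor_mono hwu
  rw [max_eq_left (by omega)] at h
  have h6 : (c : ℚ) = ⌊u⌋ - ⌊w⌋ := by exact_mod_cast h
  have h7 : |(c : ℚ) - N / d| ≤ 1 := by
    rw [h6, ← huw, abs_le]
    constructor <;> linarith
  have h8 : (((|(c : ℚ) - N / d| : ℚ)) : ℝ) ≤ ((1 : ℚ) : ℝ) := by exact_mod_cast h7
  push_cast at h8
  exact h8

lemma cnt_dvd (Z N d a : ℕ) (hd : 0 < d) :
    |(#{m ∈ Ioc Z (Z + N) | d ∣ m + a} : ℝ) - N / d| ≤ 1 := by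
  have h := cnt1 Z N d ((d - 1) * a) hd
  have e : {m ∈ Ioc Z (Z + N) | d ∣ m + a} = {m ∈ Ioc Z (Z + N) | m ≡ (d - 1) * a [MOD d]} := by
    apply Finset.filter_congr
    intro m _
    have e1 : (d - 1) * a + a = d * a := by
      obtain ⟨k, rfl⟩ : ∃ k, d = k + 1 := ⟨d - 1, by omega⟩
      rw [Nat.add_sub_cancel]
      ring
    constructor
    · intro h1
      have h2 : m + a ≡ (d - 1) * a + a [MOD d] := by
        rw [e1]
        exact ((Nat.modEq_zero_iff_dvd).2 h1).trans ((Nat.modEq_zero_iff_dvd).2 (dvd_mul_right d a)).symm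
      exact Nat.ModEq.add_right_cancel' a h2
    · intro h1
      have h2 := h1.add_right a
      rw [e1] at h2
      exact (Nat.modEq_zero_iff_dvd).1 (h2.trans ((Nat.modEq_zero_iff_dvd).2 (dvd_mul_right d a)))
  rw [e]
  exact h

lemma dvd_iff_modEq {d m j m0 : ℕ} (h0 : d ∣ m0 + j) : d ∣ m + j ↔ m ≡ m0 [MOD d] := by
  constructor
  · intro h
    have h2 : m + j ≡ m0 + j [MOD d] := ((Nat.modEq_zero_iff_dvd).2 h).trans ((Nat.modEq_zero_iff_dvd).2 h0).symm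
    exact Nat.ModEq.add_right_cancel' j h2
  · intro h
    exact (Nat.modEq_zero_iff_dvd).1 ((h.add_right j).trans ((Nat.modEq_zero_iff_dvd).2 h0))

open Classical in
lemma cnt_pair (Z N d e j j' : ℕ) (hd : 0 < d) (he : 0 < e) :
    |(#{m ∈ Ioc Z (Z + N) | d ∣ m + j ∧ e ∣ m + j'} : ℝ) -
      (if j ≡ j' [MOD Nat.gcd d e] then (N : ℝ) / (Nat.lcm d e : ℕ) else 0)| ≤ 1 := by
  split_ifs with hg
  · -- a common solution
    have h1 : (d - 1) * j ≡ (e - 1) * j' [MOD Nat.gcd d e] := by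
      have key : ∀ k i : ℕ, 0 < k → Nat.gcd d e ∣ k → (k - 1) * i + i ≡ 0 [MOD Nat.gcd d e] := by
        intro k i hk hgk
        have e1 : (k - 1) * i + i = k * i := by
          obtain ⟨l, rfl⟩ : ∃ l, k = l + 1 := ⟨k - 1, by omega⟩
          rw [Nat.add_sub_cancel]
          ring
        rw [e1]
        exact (Nat.modEq_zero_iff_dvd).2 (hgk.trans (dvd_mul_right k i))
      have h2 := key d j hd (Nat.gcd_dvd_left d e)
      have h3 := key e j' he (Nat.gcd_dvd_right d e)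
      have h4 : (d - 1) * j + j ≡ (e - 1) * j' + j [MOD Nat.gcd d e] := by
        refine h2.trans (h3.symm.trans ?_)
        exact (hg.symm).add_left _
      exact Nat.ModEq.add_right_cancel' j h4
    obtain ⟨m0, hm1, hm2⟩ := Nat.chineseRemainder' h1
    have e1 : ∀ k i : ℕ, 0 < k → k ∣ (k - 1) * i + i := by
      intro k i hk
      have e1 : (k - 1) * i + i = k * i := by
        obtain ⟨l, rfl⟩ : ∃ l, k = l + 1 := ⟨k - 1, by omega⟩
        rw [Nat.add_sub_cancel]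
        ring
      rw [e1]
      exact dvd_mul_right k i
    have hm1' : d ∣ m0 + j := (dvd_iff_modEq (e1 d j hd)).2 hm1
    have hm2' : e ∣ m0 + j' := (dvd_iff_modEq (e1 e j' he)).2 hm2
    have h5 : {m ∈ Ioc Z (Z + N) | d ∣ m + j ∧ e ∣ m + j'} =
        {m ∈ Ioc Z (Z + N) | m ≡ m0 [MOD Nat.lcm d e]} := by
      apply Finset.filter_congr
      intro m _
      rw [dvd_iff_modEq hm1', dvd_iff_modEq hm2']
      constructor
      · rintro ⟨h6, h7⟩
        exact Nat.mod_lcm h6 h7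
      · intro h6
        exact ⟨h6.of_dvd (Nat.dvd_lcm_left d e), h6.of_dvd (Nat.dvd_lcm_right d e)⟩
    rw [h5]
    exact cnt1 Z N _ m0 (Nat.lcm_pos hd he)
  · have h5 : {m ∈ Ioc Z (Z + N) | d ∣ m + j ∧ e ∣ m + j'} = ∅ := by
      rw [Finset.filter_eq_empty_iff]
      rintro m _ ⟨h6, h7⟩
      apply hg
      have h8 : m + j ≡ m + j' [MOD Nat.gcd d e] :=
        ((Nat.modEq_zero_iff_dvd).2 ((Nat.gcd_dvd_left d e).trans h6)).trans
          ((Nat.modEq_zero_iff_dvd).2 ((Nat.gcd_dvd_right d e).trans h7)).symm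
      exact Nat.ModEq.add_left_cancel' m h8
    rw [h5]
    simp

open Classical in
/-- the number of the pairs congruent modulo `g` -/
noncomputable def Pg (H g : ℕ) : ℝ := ∑ j ∈ Icc 1 H, ∑ j' ∈ Icc 1 H, if j ≡ j' [MOD g] then (1 : ℝ) else 0

lemma Pg_bound (H g : ℕ) (hg : 0 < g) : |Pg H g - (H : ℝ) ^ 2 / g| ≤ H := by
  classical
  have h1 : ∀ j ∈ Icc 1 H, |(∑ j' ∈ Icc 1 H, if j ≡ j' [MOD g] then (1 : ℝ) else 0) - H / g| ≤ 1 := by
    intro j _
    have h2 := cnt1 0 H g j hg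
    rw [zero_add] at h2
    have e1 : (∑ j' ∈ Icc 1 H, if j ≡ j' [MOD g] then (1 : ℝ) else 0) =
        (#{m ∈ Ioc 0 H | m ≡ j [MOD g]} : ℝ) := by
      rw [← Finset.sum_filter, Finset.sum_const, nsmul_eq_mul, mul_one]
      congr 1
      have : Icc 1 H = Ioc 0 H := by
        ext x
        rw [Finset.mem_Icc, Finset.mem_Ioc]
        omega
      rw [this]
      congr 1
      apply Finset.filter_congr
      intro m _
      exact ⟨fun h => h.symm, fun h => h.symm⟩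
    rw [e1]
    exact h2
  have h2 : Pg H g - (H : ℝ) ^ 2 / g =
      ∑ j ∈ Icc 1 H, ((∑ j' ∈ Icc 1 H, if j ≡ j' [MOD g] then (1 : ℝ) else 0) - H / g) := by
    unfold Pg
    rw [Finset.sum_sub_distrib, Finset.sum_const, Nat.card_Icc, Nat.add_sub_cancel, nsmul_eq_mul]
    ring
  rw [h2]
  refine (Finset.abs_sum_le_sum_abs _ _).trans ((Finset.sum_le_sum h1).trans (le_of_eq ?_))
  simp

open Classical in
/-- the number of the multiples of `d` in `(m, m + H]` -/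
noncomputable def nd (H d m : ℕ) : ℝ := ∑ j ∈ Icc 1 H, if d ∣ m + j then (1 : ℝ) else 0

lemma sum_nd (Z N H d : ℕ) (hd : 0 < d) : |∑ m ∈ Ioc Z (Z + N), nd H d m - (H : ℝ) * N / d| ≤ H := by
  classical
  unfold nd
  rw [Finset.sum_comm]
  have h2 : ∑ j ∈ Icc 1 H, ∑ m ∈ Ioc Z (Z + N), (if d ∣ m + j then (1 : ℝ) else 0) - (H : ℝ) * N / d =
      ∑ j ∈ Icc 1 H, ((#{m ∈ Ioc Z (Z + N) | d ∣ m + j} : ℝ) - N / d) := by
    rw [Finset.sum_sub_distrib, Finset.sum_const, Nat.card_Icc, Nat.add_sub_cancel, nsmul_eq_mul]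
    congr 1
    · refine Finset.sum_congr rfl fun j _ => ?_
      rw [← Finset.sum_filter, Finset.sum_const, nsmul_eq_mul, mul_one]
    · ring
  rw [h2]
  refine (Finset.abs_sum_le_sum_abs _ _).trans
    ((Finset.sum_le_sum fun j _ => cnt_dvd Z N d j hd).trans (le_of_eq ?_))
  simp

lemma sum_nd2 (Z N H d e : ℕ) (hd : 0 < d) (he : 0 < e) :
    |∑ m ∈ Ioc Z (Z + N), nd H d m * nd H e m - N * Pg H (Nat.gcd d e) / (Nat.lcm d e : ℕ)| ≤ (H : ℝ) ^ 2 := by
  classical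
  have h1 : ∑ m ∈ Ioc Z (Z + N), nd H d m * nd H e m =
      ∑ j ∈ Icc 1 H, ∑ j' ∈ Icc 1 H, (#{m ∈ Ioc Z (Z + N) | d ∣ m + j ∧ e ∣ m + j'} : ℝ) := by
    unfold nd
    simp_rw [Finset.sum_mul_sum]
    rw [Finset.sum_comm]
    refine Finset.sum_congr rfl fun j _ => ?_
    rw [Finset.sum_comm]
    refine Finset.sum_congr rfl fun j' _ => ?_
    rw [Finset.card_filter]
    push_cast
    refine Finset.sum_congr rfl fun m _ => ?_
    by_cases h2 : d ∣ m + j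
    · by_cases h3 : e ∣ m + j'
      · simp [h2, h3]
      · simp [h2, h3]
    · simp [h2]
  have h2 : N * Pg H (Nat.gcd d e) / (Nat.lcm d e : ℕ) = ∑ j ∈ Icc 1 H, ∑ j' ∈ Icc 1 H,
      (if j ≡ j' [MOD Nat.gcd d e] then (N : ℝ) / (Nat.lcm d e : ℕ) else 0) := by
    unfold Pg
    rw [mul_div_right_comm, Finset.mul_sum]
    refine Finset.sum_congr rfl fun j _ => ?_
    rw [Finset.mul_sum]
    refine Finset.sum_congr rfl fun j' _ => ?_
    split_ifs <;> ring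
  rw [h1, h2, ← Finset.sum_sub_distrib]
  refine (Finset.abs_sum_le_sum_abs _ _).trans ?_
  have h3 : ∀ j ∈ Icc 1 H, |∑ j' ∈ Icc 1 H, (#{m ∈ Ioc Z (Z + N) | d ∣ m + j ∧ e ∣ m + j'} : ℝ) -
      ∑ j' ∈ Icc 1 H, (if j ≡ j' [MOD Nat.gcd d e] then (N : ℝ) / (Nat.lcm d e : ℕ) else 0)| ≤ H := by
    intro j _
    rw [← Finset.sum_sub_distrib]
    refine (Finset.abs_sum_le_sum_abs _ _).trans
      ((Finset.sum_le_sum fun j' _ => cnt_pair Z N d e j j' hd he).trans (le_of_eq ?_))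
    simp
  refine (Finset.sum_le_sum h3).trans (le_of_eq ?_)
  simp
  ring

/-- **The covariance.** -/
lemma cov (Z N H d e : ℕ) (hd : 0 < d) (he : 0 < e) :
    |∑ m ∈ Ioc Z (Z + N), (nd H d m - H / d) * (nd H e m - H / e) -
      N * (Pg H (Nat.gcd d e) - (H : ℝ) ^ 2 / (Nat.gcd d e : ℕ)) / (Nat.lcm d e : ℕ)| ≤ 3 * (H : ℝ) ^ 2 := by
  have hdr : (1 : ℝ) ≤ d := by exact_mod_cast hd
  have her : (1 : ℝ) ≤ e := by exact_mod_cast he
  obtain ⟨g, hg⟩ : ∃ g : ℝ, g = (Nat.gcd d e : ℕ) := ⟨_, rfl⟩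
  obtain ⟨l, hl⟩ : ∃ l : ℝ, l = (Nat.lcm d e : ℕ) := ⟨_, rfl⟩
  have hg0 : 0 < g := by rw [hg]; exact_mod_cast Nat.gcd_pos_of_pos_left e hd
  have hl0 : 0 < l := by rw [hl]; exact_mod_cast Nat.lcm_pos hd he
  have hgl : g * l = d * e := by
    rw [hg, hl]
    exact_mod_cast Nat.gcd_mul_lcm d e
  obtain ⟨P, hP⟩ : ∃ P, P = Pg H (Nat.gcd d e) := ⟨_, rfl⟩
  have h1 := sum_nd2 Z N H d e hd he
  have h2 := sum_nd Z N H d hd
  have h3 := sum_nd Z N H e he
  rw [← hg, ← hl, ← hP]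
  rw [← hl, ← hP] at h1
  obtain ⟨A, hA⟩ : ∃ A, A = ∑ m ∈ Ioc Z (Z + N), nd H d m * nd H e m := ⟨_, rfl⟩
  obtain ⟨B, hB⟩ : ∃ B, B = ∑ m ∈ Ioc Z (Z + N), nd H d m := ⟨_, rfl⟩
  obtain ⟨C, hC⟩ : ∃ C, C = ∑ m ∈ Ioc Z (Z + N), nd H e m := ⟨_, rfl⟩
  have h4 : ∑ m ∈ Ioc Z (Z + N), (nd H d m - H / d) * (nd H e m - H / e) =
      A - H / e * B - H / d * C + N * (H ^ 2 / (d * e)) := by
    have h5 : ∀ m ∈ Ioc Z (Z + N), (nd H d m - H / d) * (nd H e m - H / e) =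
        nd H d m * nd H e m - (H : ℝ) / e * nd H d m - (H : ℝ) / d * nd H e m + (H : ℝ) ^ 2 / (d * e) := by
      intro m _
      have : (H : ℝ) ^ 2 / (d * e) = H / d * (H / e) := by
        rw [div_mul_div_comm]
        ring
      rw [this]
      ring
    rw [Finset.sum_congr rfl h5, Finset.sum_add_distrib, Finset.sum_sub_distrib, Finset.sum_sub_distrib,
      ← Finset.mul_sum, ← Finset.mul_sum, ← hA, ← hB, ← hC, Finset.sum_const, Nat.card_Ioc, nsmul_eq_mul]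
    congr 2
    have : Z + N - Z = N := by omega
    rw [this]
  rw [h4]
  rw [← hA] at h1
  rw [← hB] at h2
  rw [← hC] at h3
  have hH0 : (0 : ℝ) ≤ H := Nat.cast_nonneg H
  have e1 : (H : ℝ) ^ 2 / (d * e) = H ^ 2 / g / l := by
    rw [← hgl, div_div]
  have e2 : A - H / e * B - H / d * C + N * ((H : ℝ) ^ 2 / (d * e)) - N * (P - (H : ℝ) ^ 2 / g) / l =
      (A - N * P / l) - H / e * (B - H * N / d) - H / d * (C - H * N / e) := by
    have e3 : (H : ℝ) / e * (H * N / d) = N * (H ^ 2 / (d * e)) := by field_simp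
    have e4 : (H : ℝ) / d * (H * N / e) = N * (H ^ 2 / (d * e)) := by field_simp
    have e5 : N * (P - (H : ℝ) ^ 2 / g) / l = N * P / l - N * (H ^ 2 / (d * e)) := by
      rw [e1]
      field_simp
    rw [e5, mul_sub ((H : ℝ) / e), mul_sub ((H : ℝ) / d), e3, e4]
    ring
  rw [e2]
  have b1 : |(H : ℝ) / e * (B - H * N / d)| ≤ H ^ 2 := by
    rw [abs_mul, abs_of_nonneg (by positivity)]
    calc (H : ℝ) / e * |B - H * N / d| ≤ H * H :=
          mul_le_mul (div_le_self hH0 her) h2 (abs_nonneg _) hH0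
      _ = (H : ℝ) ^ 2 := by ring
  have b2 : |(H : ℝ) / d * (C - H * N / e)| ≤ H ^ 2 := by
    rw [abs_mul, abs_of_nonneg (by positivity)]
    calc (H : ℝ) / d * |C - H * N / e| ≤ H * H :=
          mul_le_mul (div_le_self hH0 hdr) h3 (abs_nonneg _) hH0
      _ = (H : ℝ) ^ 2 := by ring
  have t1 := abs_sub (A - N * P / l - H / e * (B - H * N / d)) (H / d * (C - H * N / e))
  have t2 := abs_sub (A - N * P / l) (H / e * (B - H * N / d))
  linarith

end Pool.Agent.L7h6.EX
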