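import Pool.Agent.L7h6.EX.Var

/-!
# Exceptional sets in the sieve (helper6), part 3: products and sums of weights
-/

set_option autoImplicit false

namespace Pool.Agent.L7h6.EX

open Finset

/-- sums over the subsets of a disjoint union -/
lemma sum_union' {A B : Finset ℕ} (hd : Disjoint A B) (f : Finset ℕ → ℝ) :
    ∑ U ∈ (A ∪ B).powerset, f U = ∑ U1 ∈ A.powerset, ∑ U2 ∈ B.powerset, f (U1 ∪ U2) := by
  classical
  rw [← Finset.sum_product']
  symm
  refine Finset.sum_nbij' (fun x => x.1 ∪ x.2) (fun U => (U ∩ A, U ∩ B)) ?_ ?_ ?_ ?_ ?_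
  · intro x hx
    rw [mem_product, mem_powerset, mem_powerset] at hx
    rw [mem_powerset]
    exact union_subset_union hx.1 hx.2
  · intro U _
    rw [mem_product, mem_powerset, mem_powerset]
    exact ⟨inter_subset_right, inter_subset_right⟩
  · rintro ⟨U1, U2⟩ hx
    rw [mem_product, mem_powerset, mem_powerset] at hx
    obtain ⟨h1, h2⟩ := hx
    simp only [Prod.mk.injEq]
    rw [Finset.disjoint_left] at hd
    constructor
    · ext p
      simp only [mem_inter, mem_union]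
      constructor
      · rintro ⟨h3 | h3, h4⟩
        · exact h3
        · exact (hd h4 (h2 h3)).elim
      · exact fun h3 => ⟨Or.inl h3, h1 h3⟩
    · ext p
      simp only [mem_inter, mem_union]
      constructor
      · rintro ⟨h3 | h3, h4⟩
        · exact (hd (h1 h3) h4).elim
        · exact h3
      · exact fun h3 => ⟨Or.inr h3, h2 h3⟩
  · intro U hU
    rw [mem_powerset] at hU
    rw [← inter_union_distrib_left]
    exact inter_eq_left.2 hU
  · intro x _
    rfl

open Classical in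
/-- products of weights -/
noncomputable def comb (A B : Finset ℕ) (c c' : Finset ℕ → ℝ) (U : Finset ℕ) : ℝ := c (U ∩ A) * c' (U ∩ B)

lemma comb_eq {A B : Finset ℕ} (hd : Disjoint A B) (c c' : Finset ℕ → ℝ) {U1 U2 : Finset ℕ} (h1 : U1 ⊆ A)
    (h2 : U2 ⊆ B) : comb A B c c' (U1 ∪ U2) = c U1 * c' U2 := by
  classical
  unfold comb
  rw [Finset.disjoint_left] at hd
  have e1 : (U1 ∪ U2) ∩ A = U1 := by
    ext p
    simp only [mem_inter, mem_union]
    constructor
    · rintro ⟨h3 | h3, h4⟩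
      · exact h3
      · exact (hd h4 (h2 h3)).elim
    · exact fun h3 => ⟨Or.inl h3, h1 h3⟩
  have e2 : (U1 ∪ U2) ∩ B = U2 := by
    ext p
    simp only [mem_inter, mem_union]
    constructor
    · rintro ⟨h3 | h3, h4⟩
      · exact (hd (h1 h3) h4).elim
      · exact h3
    · exact fun h3 => ⟨Or.inr h3, h2 h3⟩
  rw [e1, e2]

lemma disj_sub {A B U1 U2 : Finset ℕ} (hd : Disjoint A B) (h1 : U1 ⊆ A) (h2 : U2 ⊆ B) : Disjoint U1 U2 :=
  Finset.disjoint_of_subset_left h1 (Finset.disjoint_of_subset_right h2 hd)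

lemma wt_union {U1 U2 : Finset ℕ} (hd : Disjoint U1 U2) : wt (U1 ∪ U2) = wt U1 * wt U2 :=
  Finset.prod_union hd

lemma wt_nonneg (U : Finset ℕ) : 0 ≤ wt U := Finset.prod_nonneg fun p _ => by positivity

lemma coprime_prod {U1 U2 : Finset ℕ} (hd : Disjoint U1 U2) (h1 : ∀ p ∈ U1, p.Prime) (h2 : ∀ p ∈ U2, p.Prime) :
    Nat.Coprime (∏ p ∈ U1, p) (∏ p ∈ U2, p) := by
  apply Nat.Coprime.prod_left
  intro p hp
  apply Nat.Coprime.prod_right
  intro q hq
  rw [Nat.coprime_primes (h1 p hp) (h2 q hq)]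
  rintro rfl
  exact (Finset.disjoint_left.1 hd) hp hq

section

variable {A B : Finset ℕ} (hd : Disjoint A B) (hA : ∀ p ∈ A, p.Prime) (hB : ∀ p ∈ B, p.Prime) (c c' : Finset ℕ → ℝ)

include hd hA hB in
lemma fw_comb (v : ℕ) : fw (A ∪ B) (comb A B c c') v = fw A c v * fw B c' v := by
  classical
  unfold fw
  rw [sum_union' hd, Finset.sum_mul_sum]
  refine Finset.sum_congr rfl fun U1 h1 => Finset.sum_congr rfl fun U2 h2 => ?_
  rw [mem_powerset] at h1 h2
  rw [comb_eq hd c c' h1 h2]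
  have h3 : ((∏ p ∈ U1 ∪ U2, p) ∣ v) ↔ (∏ p ∈ U1, p) ∣ v ∧ (∏ p ∈ U2, p) ∣ v := by
    rw [Finset.prod_union (disj_sub hd h1 h2)]
    have hc := coprime_prod (disj_sub hd h1 h2) (fun p hp => hA p (h1 hp)) (fun p hp => hB p (h2 hp))
    exact ⟨fun h => ⟨(dvd_mul_right _ _).trans h, (dvd_mul_left _ _).trans h⟩,
      fun h => hc.mul_dvd_of_dvd_of_dvd h.1 h.2⟩
  by_cases h4 : (∏ p ∈ U1, p) ∣ v
  · by_cases h5 : (∏ p ∈ U2, p) ∣ v
    · rw [if_pos (h3.2 ⟨h4, h5⟩), if_pos h4, if_pos h5]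
      ring
    · rw [if_neg (fun h => h5 (h3.1 h).2), if_neg h5]
      ring
  · rw [if_neg (fun h => h4 (h3.1 h).1), if_neg h4]
    ring

include hd in
lemma rho_comb {V1 V2 : Finset ℕ} (hV1 : V1 ⊆ A) (hV2 : V2 ⊆ B) :
    rho (A ∪ B) (comb A B c c') (V1 ∪ V2) = rho A c V1 * rho B c' V2 := by
  classical
  unfold rho
  rw [sum_union' hd, Finset.sum_mul_sum]
  refine Finset.sum_congr rfl fun U1 h1 => Finset.sum_congr rfl fun U2 h2 => ?_
  rw [mem_powerset] at h1 h2
  rw [comb_eq hd c c' h1 h2, wt_union (disj_sub hd h1 h2)]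
  have h3 : (V1 ∪ V2 ⊆ U1 ∪ U2) ↔ V1 ⊆ U1 ∧ V2 ⊆ U2 := by
    rw [Finset.disjoint_left] at hd
    constructor
    · intro h
      refine ⟨fun p hp => ?_, fun p hp => ?_⟩
      · rcases mem_union.1 (h (mem_union_left _ hp)) with h4 | h4
        · exact h4
        · exact (hd (hV1 hp) (h2 h4)).elim
      · rcases mem_union.1 (h (mem_union_right _ hp)) with h4 | h4
        · exact (hd (h1 h4) (hV2 hp)).elim
        · exact h4
    · exact fun h => union_subset_union h.1 h.2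
  by_cases h4 : V1 ⊆ U1
  · by_cases h5 : V2 ⊆ U2
    · rw [if_pos (h3.2 ⟨h4, h5⟩), if_pos h4, if_pos h5]
      ring
    · rw [if_neg (fun h => h5 (h3.1 h).2), if_neg h5]
      ring
  · rw [if_neg (fun h => h4 (h3.1 h).1), if_neg h4]
    ring

include hd in
lemma rho_comb0 : rho (A ∪ B) (comb A B c c') ∅ = rho A c ∅ * rho B c' ∅ := by
  have := rho_comb hd c c' (empty_subset A) (empty_subset B)
  rwa [empty_union] at this

include hd in
lemma Q_comb : Q (A ∪ B) (comb A B c c') = Q A c * Q B c' := by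
  classical
  unfold Q
  rw [sum_union' hd, Finset.sum_mul_sum]
  refine Finset.sum_congr rfl fun V1 h1 => Finset.sum_congr rfl fun V2 h2 => ?_
  rw [mem_powerset] at h1 h2
  rw [rho_comb hd c c' h1 h2, Finset.prod_union (disj_sub hd h1 h2)]
  ring

include hd in
lemma S1_comb : S1 (A ∪ B) (comb A B c c') = S1 A c * S1 B c' := by
  classical
  unfold S1
  rw [sum_union' hd, Finset.sum_mul_sum]
  refine Finset.sum_congr rfl fun U1 h1 => Finset.sum_congr rfl fun U2 h2 => ?_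
  rw [mem_powerset] at h1 h2
  rw [comb_eq hd c c' h1 h2, abs_mul]

end

/-! ## The norm -/

lemma Q_nonneg (P : Finset ℕ) (c : Finset ℕ → ℝ) : 0 ≤ Q P c :=
  Finset.sum_nonneg fun V _ => mul_nonneg (Finset.prod_nonneg fun p _ => by positivity) (sq_nonneg _)

/-- the norm -/
noncomputable def Nm (P : Finset ℕ) (c : Finset ℕ → ℝ) : ℝ := √(Q P c)

lemma Nm_nonneg (P : Finset ℕ) (c : Finset ℕ → ℝ) : 0 ≤ Nm P c := Real.sqrt_nonneg _

lemma Nm_sq (P : Finset ℕ) (c : Finset ℕ → ℝ) : Nm P c ^ 2 = Q P c := Real.sq_sqrt (Q_nonneg P c)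

lemma Nm_comb {A B : Finset ℕ} (hd : Disjoint A B) (c c' : Finset ℕ → ℝ) :
    Nm (A ∪ B) (comb A B c c') = Nm A c * Nm B c' := by
  unfold Nm
  rw [Q_comb hd, Real.sqrt_mul (Q_nonneg A c)]

lemma rho_lin (P : Finset ℕ) (c c' : Finset ℕ → ℝ) (x y : ℝ) (V : Finset ℕ) :
    rho P (fun U => x * c U + y * c' U) V = x * rho P c V + y * rho P c' V := by
  classical
  unfold rho
  rw [Finset.mul_sum, Finset.mul_sum, ← Finset.sum_add_distrib]
  refine Finset.sum_congr rfl fun U _ => ?_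
  split_ifs <;> ring

lemma fw_lin (P : Finset ℕ) (c c' : Finset ℕ → ℝ) (x y : ℝ) (v : ℕ) :
    fw P (fun U => x * c U + y * c' U) v = x * fw P c v + y * fw P c' v := by
  classical
  unfold fw
  rw [Finset.mul_sum, Finset.mul_sum, ← Finset.sum_add_distrib]
  refine Finset.sum_congr rfl fun U _ => ?_
  ring

lemma S1_lin (P : Finset ℕ) (c c' : Finset ℕ → ℝ) (x y : ℝ) :
    S1 P (fun U => x * c U + y * c' U) ≤ |x| * S1 P c + |y| * S1 P c' := by
  unfold S1
  rw [Finset.mul_sum, Finset.mul_sum, ← Finset.sum_add_distrib]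
  refine Finset.sum_le_sum fun U _ => ?_
  refine (abs_add_le _ _).trans ?_
  rw [abs_mul, abs_mul]

/-- the triangle inequality -/
lemma Nm_lin (P : Finset ℕ) (c c' : Finset ℕ → ℝ) (x y : ℝ) :
    Nm P (fun U => x * c U + y * c' U) ≤ |x| * Nm P c + |y| * Nm P c' := by
  have hQ : Q P (fun U => x * c U + y * c' U) ≤ (|x| * Nm P c + |y| * Nm P c') ^ 2 := by
    obtain ⟨w, hw⟩ : ∃ w : Finset ℕ → ℝ, w = fun V : Finset ℕ => ∏ p ∈ V, ((p : ℝ) + 1) := ⟨_, rfl⟩
    have hw0 : ∀ V, 0 ≤ w V := fun V => by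
      rw [hw]
      exact Finset.prod_nonneg fun p _ => by positivity
    have e1 : ∀ c : Finset ℕ → ℝ, Q P c = ∑ V ∈ P.powerset, w V * rho P c V ^ 2 := fun c => by
      rw [hw]
      rfl
    have e2 : Q P (fun U => x * c U + y * c' U) = x ^ 2 * Q P c + y ^ 2 * Q P c' +
        2 * (x * y) * ∑ V ∈ P.powerset, w V * (rho P c V * rho P c' V) := by
      rw [e1, e1, e1, Finset.mul_sum, Finset.mul_sum, Finset.mul_sum, ← Finset.sum_add_distrib,
        ← Finset.sum_add_distrib]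
      refine Finset.sum_congr rfl fun V _ => ?_
      rw [rho_lin]
      ring
    have e3 : |∑ V ∈ P.powerset, w V * (rho P c V * rho P c' V)| ≤ Nm P c * Nm P c' := by
      have h1 := Finset.sum_mul_sq_le_sq_mul_sq P.powerset (fun V => √(w V) * rho P c V) (fun V => √(w V) * rho P c' V)
      have h2 : ∀ c : Finset ℕ → ℝ, ∑ V ∈ P.powerset, (√(w V) * rho P c V) ^ 2 = Q P c := fun c => by
        rw [e1]
        refine Finset.sum_congr rfl fun V _ => ?_
        rw [mul_pow, Real.sq_sqrt (hw0 V)]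
      have h3 : ∑ V ∈ P.powerset, √(w V) * rho P c V * (√(w V) * rho P c' V) =
          ∑ V ∈ P.powerset, w V * (rho P c V * rho P c' V) := by
        refine Finset.sum_congr rfl fun V _ => ?_
        calc _ = (√(w V) * √(w V)) * (rho P c V * rho P c' V) := by ring
          _ = _ := by rw [Real.mul_self_sqrt (hw0 V)]
      rw [h2, h2, h3] at h1
      unfold Nm
      rw [← Real.sqrt_mul (Q_nonneg P c)]
      exact Real.abs_le_sqrt h1
    rw [e2]
    have e4 : 2 * (x * y) * ∑ V ∈ P.powerset, w V * (rho P c V * rho P c' V) ≤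
        2 * (|x| * |y|) * (Nm P c * Nm P c') := by
      refine (le_abs_self _).trans ?_
      rw [abs_mul, abs_mul, abs_mul, abs_two]
      exact mul_le_mul_of_nonneg_left e3 (by positivity)
    have e5 : (|x| * Nm P c + |y| * Nm P c') ^ 2 = x ^ 2 * Q P c + y ^ 2 * Q P c' + 2 * (|x| * |y|) * (Nm P c * Nm P c') := by
      rw [← Nm_sq, ← Nm_sq, ← sq_abs x, ← sq_abs y]
      ring
    linarith
  unfold Nm at *
  rw [Real.sqrt_le_left (by positivity)]
  exact hQ

lemma rho_le_Nm (P : Finset ℕ) (c : Finset ℕ → ℝ) : |rho P c ∅| ≤ Nm P c := by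
  unfold Nm
  apply Real.abs_le_sqrt
  unfold Q
  have h1 : (∏ p ∈ (∅ : Finset ℕ), ((p : ℝ) + 1)) * rho P c ∅ ^ 2 = rho P c ∅ ^ 2 := by simp
  rw [← h1]
  exact Finset.single_le_sum (f := fun V : Finset ℕ => (∏ p ∈ V, ((p : ℝ) + 1)) * rho P c V ^ 2)
    (fun V _ => mul_nonneg (Finset.prod_nonneg fun p _ => by positivity) (sq_nonneg _)) (Finset.empty_mem_powerset P)

end Pool.Agent.L7h6.EX
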