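import Pool.Agent.L7h6.EX.Count

/-!
# Exceptional sets in the sieve (helper6), part 2: the variance

`fw P c v = ∑ c U`, over the sets `U ⊆ P` of prime divisors of `v`; `rho P c V = ∑ c U / ∏ U` over `V ⊆ U ⊆ P`.
-/

set_option autoImplicit false

namespace Pool.Agent.L7h6.EX

open Finset

/-- the reciprocal of the product -/
noncomputable def wt (U : Finset ℕ) : ℝ := ∏ p ∈ U, (1 / (p : ℝ))

open Classical in
/-- the divisor sum -/
noncomputable def fw (P : Finset ℕ) (c : Finset ℕ → ℝ) (v : ℕ) : ℝ :=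
  ∑ U ∈ P.powerset, c U * (if (∏ p ∈ U, p) ∣ v then 1 else 0)

open Classical in
/-- the coefficients of the Fourier expansion -/
noncomputable def rho (P : Finset ℕ) (c : Finset ℕ → ℝ) (V : Finset ℕ) : ℝ :=
  ∑ U ∈ P.powerset, if V ⊆ U then c U * wt U else 0

/-- the quadratic form -/
noncomputable def Q (P : Finset ℕ) (c : Finset ℕ → ℝ) : ℝ :=
  ∑ V ∈ P.powerset, (∏ p ∈ V, ((p : ℝ) + 1)) * rho P c V ^ 2

/-- the sum of the absolute values -/
noncomputable def S1 (P : Finset ℕ) (c : Finset ℕ → ℝ) : ℝ := ∑ U ∈ P.powerset, |c U|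

/-- sums over the sets between `V` and `P` -/
lemma sum_sup {V P : Finset ℕ} (hV : V ⊆ P) (f : Finset ℕ → ℝ) :
    (∑ U ∈ P.powerset, if V ⊆ U then f U else 0) = ∑ R ∈ (P \ V).powerset, f (V ∪ R) := by
  classical
  rw [← Finset.sum_filter]
  symm
  refine Finset.sum_nbij' (fun R => V ∪ R) (fun U => U \ V) ?_ ?_ ?_ ?_ ?_
  · intro R hR
    rw [mem_powerset] at hR
    rw [mem_filter, mem_powerset]
    exact ⟨union_subset hV (hR.trans sdiff_subset), subset_union_left⟩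
  · intro U hU
    rw [mem_filter, mem_powerset] at hU
    rw [mem_powerset]
    exact sdiff_subset_sdiff hU.1 subset_rfl
  · intro R hR
    rw [mem_powerset] at hR
    have hd : Disjoint V R := by
      rw [Finset.disjoint_left]
      intro x hx hx'
      exact (mem_sdiff.1 (hR hx')).2 hx
    exact union_sdiff_cancel_left hd
  · intro U hU
    rw [mem_filter, mem_powerset] at hU
    exact union_sdiff_of_subset hU.2
  · intro R _
    rfl

/-- the Möbius transform -/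
noncomputable def hh (K : Finset ℕ → ℝ) (V : Finset ℕ) : ℝ := ∑ W ∈ V.powerset, (-1) ^ (V \ W).card * K W

lemma mob (K : Finset ℕ → ℝ) (W : Finset ℕ) : ∑ V ∈ W.powerset, hh K V = K W := by
  classical
  unfold hh
  have h1 : ∑ V ∈ W.powerset, ∑ T ∈ V.powerset, (-1 : ℝ) ^ (V \ T).card * K T =
      ∑ V ∈ W.powerset, ∑ T ∈ W.powerset, (if T ⊆ V then (-1 : ℝ) ^ (V \ T).card * K T else 0) := by
    refine Finset.sum_congr rfl fun V hV => ?_
    rw [mem_powerset] at hV
    rw [← Finset.sum_filter]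
    refine Finset.sum_congr ?_ fun _ _ => rfl
    ext T
    rw [mem_powerset, mem_filter, mem_powerset]
    exact ⟨fun h => ⟨h.trans hV, h⟩, fun h => h.2⟩
  rw [h1, Finset.sum_comm]
  have h2 : ∀ T ∈ W.powerset, (∑ V ∈ W.powerset, if T ⊆ V then (-1 : ℝ) ^ (V \ T).card * K T else 0) =
      if T = W then K W else 0 := by
    intro T hT
    rw [mem_powerset] at hT
    rw [sum_sup hT]
    have h3 : ∀ R ∈ (W \ T).powerset, (-1 : ℝ) ^ ((T ∪ R) \ T).card * K T = (-1) ^ R.card * K T := by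
      intro R hR
      rw [mem_powerset] at hR
      have hd : Disjoint T R := by
        rw [Finset.disjoint_left]
        intro x hx hx'
        exact (mem_sdiff.1 (hR hx')).2 hx
      rw [union_sdiff_cancel_left hd]
    rw [Finset.sum_congr rfl h3, ← Finset.sum_mul]
    have h4 : ∑ R ∈ (W \ T).powerset, (-1 : ℝ) ^ R.card = if W \ T = ∅ then 1 else 0 := by
      have := Finset.sum_powerset_neg_one_pow_card (x := W \ T)
      have h5 : ((∑ m ∈ (W \ T).powerset, (-1 : ℤ) ^ m.card : ℤ) : ℝ) = ((if W \ T = ∅ then 1 else 0 : ℤ) : ℝ) := by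
        rw [this]
      push_cast at h5
      exact h5
    rw [h4]
    by_cases h5 : T = W
    · rw [h5]
      simp
    · have h6 : ¬ W \ T = ∅ := by
        rw [sdiff_eq_empty_iff_subset]
        intro h7
        exact h5 (subset_antisymm hT h7)
      rw [if_neg h6, if_neg h5, zero_mul]
  rw [Finset.sum_congr rfl h2, Finset.sum_ite_eq' W.powerset W (fun _ => K W), if_pos (mem_powerset_self W)]

lemma hh_le (K : Finset ℕ → ℝ) (V : Finset ℕ) (H : ℝ) (hH : 0 ≤ H) (hK : ∀ W ⊆ V, |K W| ≤ H * ∏ p ∈ W, (p : ℝ)) :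
    |hh K V| ≤ H * ∏ p ∈ V, ((p : ℝ) + 1) := by
  unfold hh
  refine (Finset.abs_sum_le_sum_abs _ _).trans ?_
  have h1 : ∏ p ∈ V, ((p : ℝ) + 1) = ∑ W ∈ V.powerset, ∏ p ∈ W, (p : ℝ) := by
    rw [← Finset.prod_one_add]
    exact Finset.prod_congr rfl fun p _ => add_comm _ _
  rw [h1, Finset.mul_sum]
  refine Finset.sum_le_sum fun W hW => ?_
  rw [abs_mul, abs_pow, abs_neg, abs_one, one_pow, one_mul]
  exact hK W (mem_powerset.1 hW)

/-- the quadratic form in the weights at the intersections -/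
lemma quad (P : Finset ℕ) (x : Finset ℕ → ℝ) (K : Finset ℕ → ℝ) (H : ℝ) (hH : 0 ≤ H)
    (hK : ∀ W ⊆ P, |K W| ≤ H * ∏ p ∈ W, (p : ℝ)) :
    ∑ U ∈ P.powerset, ∑ U' ∈ P.powerset, x U * x U' * K (U ∩ U') ≤
      H * ∑ V ∈ P.powerset, (∏ p ∈ V, ((p : ℝ) + 1)) * (∑ U ∈ P.powerset, if V ⊆ U then x U else 0) ^ 2 := by
  classical
  have h1 : ∀ U ∈ P.powerset, ∀ U' ∈ P.powerset, K (U ∩ U') =
      ∑ V ∈ P.powerset, hh K V * ((if V ⊆ U then 1 else 0) * (if V ⊆ U' then 1 else 0)) := by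
    intro U hU U' _
    rw [mem_powerset] at hU
    rw [← mob K (U ∩ U')]
    have h2 : ∀ V ∈ P.powerset, hh K V * ((if V ⊆ U then 1 else 0) * (if V ⊆ U' then 1 else 0)) =
        if V ⊆ U ∩ U' then hh K V else 0 := by
      intro V _
      by_cases h3 : V ⊆ U
      · by_cases h4 : V ⊆ U'
        · rw [if_pos h3, if_pos h4, if_pos (subset_inter h3 h4), mul_one, mul_one]
        · rw [if_neg h4, if_neg (fun h : V ⊆ U ∩ U' => h4 (h.trans inter_subset_right)), mul_zero, mul_zero]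
      · rw [if_neg h3, if_neg (fun h : V ⊆ U ∩ U' => h3 (h.trans inter_subset_left)), zero_mul, mul_zero]
    rw [Finset.sum_congr rfl h2, ← Finset.sum_filter]
    refine Finset.sum_congr ?_ fun _ _ => rfl
    ext V
    rw [mem_powerset, mem_filter, mem_powerset]
    exact ⟨fun h => ⟨(h.trans inter_subset_left).trans hU, h⟩, fun h => h.2⟩
  have h2 : ∑ U ∈ P.powerset, ∑ U' ∈ P.powerset, x U * x U' * K (U ∩ U') =
      ∑ V ∈ P.powerset, hh K V * (∑ U ∈ P.powerset, if V ⊆ U then x U else 0) ^ 2 := by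
    calc ∑ U ∈ P.powerset, ∑ U' ∈ P.powerset, x U * x U' * K (U ∩ U')
        = ∑ U ∈ P.powerset, ∑ U' ∈ P.powerset, ∑ V ∈ P.powerset,
            hh K V * ((if V ⊆ U then x U else 0) * (if V ⊆ U' then x U' else 0)) := by
          refine Finset.sum_congr rfl fun U hU => Finset.sum_congr rfl fun U' hU' => ?_
          rw [h1 U hU U' hU', Finset.mul_sum]
          refine Finset.sum_congr rfl fun V _ => ?_
          split_ifs <;> ring
      _ = ∑ V ∈ P.powerset, ∑ U ∈ P.powerset, ∑ U' ∈ P.powerset,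
            hh K V * ((if V ⊆ U then x U else 0) * (if V ⊆ U' then x U' else 0)) := by
          rw [Finset.sum_comm]
          calc _ = ∑ U' ∈ P.powerset, ∑ V ∈ P.powerset, ∑ U ∈ P.powerset,
                hh K V * ((if V ⊆ U then x U else 0) * (if V ⊆ U' then x U' else 0)) := by
                refine Finset.sum_congr rfl fun U' _ => ?_
                rw [Finset.sum_comm]
            _ = ∑ V ∈ P.powerset, ∑ U' ∈ P.powerset, ∑ U ∈ P.powerset,
                hh K V * ((if V ⊆ U then x U else 0) * (if V ⊆ U' then x U' else 0)) := Finset.sum_comm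
            _ = _ := Finset.sum_congr rfl fun V _ => Finset.sum_comm
      _ = _ := by
          refine Finset.sum_congr rfl fun V _ => ?_
          rw [sq, Finset.sum_mul_sum, Finset.mul_sum]
          refine Finset.sum_congr rfl fun U _ => ?_
          rw [Finset.mul_sum]
  rw [h2, Finset.mul_sum]
  refine Finset.sum_le_sum fun V hV => ?_
  rw [mem_powerset] at hV
  have h3 := hh_le K V H hH fun W hW => hK W (hW.trans hV)
  have h4 := (le_abs_self (hh K V)).trans h3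
  calc hh K V * (∑ U ∈ P.powerset, if V ⊆ U then x U else 0) ^ 2
      ≤ (H * ∏ p ∈ V, ((p : ℝ) + 1)) * (∑ U ∈ P.powerset, if V ⊆ U then x U else 0) ^ 2 :=
        mul_le_mul_of_nonneg_right h4 (sq_nonneg _)
    _ = _ := by ring

lemma prod_pos_of {U : Finset ℕ} (hU : ∀ p ∈ U, p.Prime) : 0 < ∏ p ∈ U, p :=
  Finset.prod_pos fun p hp => (hU p hp).pos

lemma gcd_prod {U U' : Finset ℕ} (hU : ∀ p ∈ U, p.Prime) (hU' : ∀ p ∈ U', p.Prime) :
    Nat.gcd (∏ p ∈ U, p) (∏ p ∈ U', p) = ∏ p ∈ U ∩ U', p := by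
  classical
  have e1 : ∏ p ∈ U, p = (∏ p ∈ U ∩ U', p) * ∏ p ∈ U \ U', p := by
    rw [← Finset.prod_union (Finset.disjoint_left.2 fun x hx hx' =>
      (mem_sdiff.1 hx').2 (mem_inter.1 hx).2)]
    congr 1
    ext x
    simp only [mem_union, mem_inter, mem_sdiff]
    tauto
  have e2 : ∏ p ∈ U', p = (∏ p ∈ U ∩ U', p) * ∏ p ∈ U' \ U, p := by
    rw [← Finset.prod_union (Finset.disjoint_left.2 fun x hx hx' =>
      (mem_sdiff.1 hx').2 (mem_inter.1 hx).1)]
    congr 1
    ext x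
    simp only [mem_union, mem_inter, mem_sdiff]
    tauto
  rw [e1, e2, Nat.gcd_mul_left]
  have h3 : Nat.Coprime (∏ p ∈ U \ U', p) (∏ p ∈ U' \ U, p) := by
    apply Nat.Coprime.prod_left
    intro p hp
    apply Nat.Coprime.prod_right
    intro q hq
    rw [mem_sdiff] at hp hq
    rw [Nat.coprime_primes (hU p hp.1) (hU' q hq.1)]
    rintro rfl
    exact hp.2 hq.1
  rw [h3.gcd_eq_one, mul_one]

lemma wt_eq {U : Finset ℕ} : wt U = 1 / ((∏ p ∈ U, p : ℕ) : ℝ) := by
  unfold wt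
  rw [Finset.prod_div_distrib, Finset.prod_const_one]
  push_cast
  rfl

/-- **The variance.** -/
theorem variance (P : Finset ℕ) (hP : ∀ p ∈ P, p.Prime) (c : Finset ℕ → ℝ) (Z N H : ℕ) :
    ∑ m ∈ Ioc Z (Z + N), (∑ j ∈ Icc 1 H, fw P c (m + j) - H * rho P c ∅) ^ 2 ≤
      N * H * Q P c + 3 * (H : ℝ) ^ 2 * S1 P c ^ 2 := by
  classical
  obtain ⟨D, hD⟩ : ∃ D : Finset ℕ → ℕ, D = fun U => ∏ p ∈ U, p := ⟨_, rfl⟩
  have hDp : ∀ U ∈ P.powerset, 0 < D U := fun U hU => by
    rw [hD]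
    exact prod_pos_of fun p hp => hP p (mem_powerset.1 hU hp)
  have hwt : ∀ U, wt U = 1 / (D U : ℝ) := fun U => by rw [hD]; exact wt_eq
  have h1 : ∀ m ∈ Ioc Z (Z + N), (∑ j ∈ Icc 1 H, fw P c (m + j) - H * rho P c ∅) ^ 2 =
      ∑ U ∈ P.powerset, ∑ U' ∈ P.powerset, c U * c U' *
        ((nd H (D U) m - H / D U) * (nd H (D U') m - H / D U')) := by
    intro m _
    have h2 : ∑ j ∈ Icc 1 H, fw P c (m + j) - H * rho P c ∅ =
        ∑ U ∈ P.powerset, c U * (nd H (D U) m - H / D U) := by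
      unfold fw rho nd
      rw [Finset.sum_comm, Finset.mul_sum, ← Finset.sum_sub_distrib]
      refine Finset.sum_congr rfl fun U _ => ?_
      rw [if_pos (empty_subset U), ← Finset.mul_sum, hwt U, hD]
      ring
    rw [h2, sq, Finset.sum_mul_sum]
    refine Finset.sum_congr rfl fun U _ => Finset.sum_congr rfl fun U' _ => ?_
    ring
  rw [Finset.sum_congr rfl h1, Finset.sum_comm]
  have h2 : ∀ U ∈ P.powerset, ∑ m ∈ Ioc Z (Z + N), ∑ U' ∈ P.powerset, c U * c U' *
      ((nd H (D U) m - H / D U) * (nd H (D U') m - H / D U')) =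
      ∑ U' ∈ P.powerset, c U * c U' * ∑ m ∈ Ioc Z (Z + N), ((nd H (D U) m - H / D U) * (nd H (D U') m - H / D U')) := by
    intro U _
    rw [Finset.sum_comm]
    refine Finset.sum_congr rfl fun U' _ => ?_
    rw [Finset.mul_sum]
  rw [Finset.sum_congr rfl h2]
  obtain ⟨K, hK⟩ : ∃ K : Finset ℕ → ℝ, K = fun W => (Pg H (D W) - (H : ℝ) ^ 2 / D W) * D W := ⟨_, rfl⟩
  have h3 : ∀ U ∈ P.powerset, ∀ U' ∈ P.powerset,
      c U * c U' * ∑ m ∈ Ioc Z (Z + N), ((nd H (D U) m - H / D U) * (nd H (D U') m - H / D U')) ≤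
      N * ((c U * wt U) * (c U' * wt U') * K (U ∩ U')) + 3 * (H : ℝ) ^ 2 * (|c U| * |c U'|) := by
    intro U hU U' hU'
    have h4 := cov Z N H (D U) (D U') (hDp U hU) (hDp U' hU')
    have hg : Nat.gcd (D U) (D U') = D (U ∩ U') := by
      rw [hD]
      exact gcd_prod (fun p hp => hP p (mem_powerset.1 hU hp)) (fun p hp => hP p (mem_powerset.1 hU' hp))
    have hgp : 0 < D (U ∩ U') := hDp _ (mem_powerset.2 (inter_subset_left.trans (mem_powerset.1 hU)))
    have hlcm : (D (U ∩ U') : ℝ) * (Nat.lcm (D U) (D U') : ℕ) = D U * D U' := by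
      rw [← hg]
      exact_mod_cast Nat.gcd_mul_lcm (D U) (D U')
    rw [hg] at h4
    have hDU : (0 : ℝ) < D U := by exact_mod_cast hDp U hU
    have hDU' : (0 : ℝ) < D U' := by exact_mod_cast hDp U' hU'
    have hDI : (0 : ℝ) < D (U ∩ U') := by exact_mod_cast hgp
    have hl : (0 : ℝ) < (Nat.lcm (D U) (D U') : ℕ) := by exact_mod_cast Nat.lcm_pos (hDp U hU) (hDp U' hU')
    have e1 : N * (Pg H (D (U ∩ U')) - (H : ℝ) ^ 2 / (D (U ∩ U') : ℕ)) / (Nat.lcm (D U) (D U') : ℕ) =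
        N * (wt U * wt U' * K (U ∩ U')) := by
      rw [hK, hwt, hwt]
      beta_reduce
      have e2 : (1 : ℝ) / (Nat.lcm (D U) (D U') : ℕ) = 1 / D U * (1 / D U') * D (U ∩ U') := by
        rw [div_mul_div_comm, one_mul, ← hlcm]
        field_simp
      calc _ = N * (Pg H (D (U ∩ U')) - (H : ℝ) ^ 2 / (D (U ∩ U') : ℕ)) * (1 / (Nat.lcm (D U) (D U') : ℕ)) := by
            rw [mul_one_div]
        _ = _ := by rw [e2]; ring
    rw [e1] at h4
    obtain ⟨A, hA⟩ : ∃ A, A = ∑ m ∈ Ioc Z (Z + N), ((nd H (D U) m - H / D U) * (nd H (D U') m - H / D U')) := ⟨_, rfl⟩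
    rw [← hA] at h4 ⊢
    have h5 : c U * c U' * (A - N * (wt U * wt U' * K (U ∩ U'))) ≤ 3 * (H : ℝ) ^ 2 * (|c U| * |c U'|) := by
      refine (le_abs_self _).trans ?_
      rw [abs_mul, abs_mul]
      calc |c U| * |c U'| * |A - N * (wt U * wt U' * K (U ∩ U'))| ≤ |c U| * |c U'| * (3 * (H : ℝ) ^ 2) :=
            mul_le_mul_of_nonneg_left h4 (by positivity)
        _ = _ := by ring
    linarith
  refine (Finset.sum_le_sum fun U hU => Finset.sum_le_sum fun U' hU' => h3 U hU U' hU').trans ?_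
  have h4 : ∑ U ∈ P.powerset, ∑ U' ∈ P.powerset,
      (N * ((c U * wt U) * (c U' * wt U') * K (U ∩ U')) + 3 * (H : ℝ) ^ 2 * (|c U| * |c U'|)) =
      N * ∑ U ∈ P.powerset, ∑ U' ∈ P.powerset, (c U * wt U) * (c U' * wt U') * K (U ∩ U') +
      3 * (H : ℝ) ^ 2 * S1 P c ^ 2 := by
    unfold S1
    rw [sq (∑ U ∈ P.powerset, |c U|), Finset.sum_mul_sum, Finset.mul_sum, Finset.mul_sum, ← Finset.sum_add_distrib]
    refine Finset.sum_congr rfl fun U _ => ?_
    rw [Finset.sum_add_distrib, Finset.mul_sum, Finset.mul_sum]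
  rw [h4]
  have h5 := quad P (fun U => c U * wt U) K H (Nat.cast_nonneg H) (fun W hW => by
    have hWp : 0 < D W := hDp W (mem_powerset.2 hW)
    have h6 := Pg_bound H (D W) hWp
    rw [hK]
    beta_reduce
    rw [abs_mul, abs_of_nonneg (Nat.cast_nonneg (D W) : (0 : ℝ) ≤ (D W : ℝ))]
    have e3 : ((D W : ℕ) : ℝ) = ∏ p ∈ W, (p : ℝ) := by
      rw [hD]
      push_cast
      rfl
    rw [← e3]
    exact mul_le_mul_of_nonneg_right h6 (Nat.cast_nonneg _))
  have h6 : (N : ℝ) * ∑ U ∈ P.powerset, ∑ U' ∈ P.powerset, (c U * wt U) * (c U' * wt U') * K (U ∩ U') ≤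
      N * (H * Q P c) := mul_le_mul_of_nonneg_left h5 (Nat.cast_nonneg N)
  linarith

end Pool.Agent.L7h6.EX
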